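import Pool.Agent.W838.DC.Stm3
import Pool.Agent.W838.DC.Basic

/-! # Project DC (helper838), part VA -/

set_option autoImplicit false

namespace Pool.Agent.W101.DC

open Pool.Agent.W838.DC Pool.Agent.W838.DC.Sys

variable {V X : Type*} [AddCommGroup V] {σ : Sys V X}

lemma mu_up (hC : S_CNT σ) {x : X} {e : V} (h : σ.N x e) : σ.mu x < σ.mu (σ.r e x) := by
  have hR : σ.R (σ.r e x) e := by
    refine ⟨h.1, h.2.1, ?_⟩
    rw [σ.lab_r_self h.1, map_neg]
    have := h.2.2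
    omega
  have := (hC _ _ hR).1
  rwa [σ.r_r h.1] at this

lemma mu_reach (hC : S_CNT σ) {x y : X} (h : σ.Reach x y) :
    (x = y ∨ σ.mu y < σ.mu x) ∧ (x = y ∨ σ.P y) := by
  induction h with
  | refl => exact ⟨Or.inl rfl, Or.inl rfl⟩
  | tail _ hstep ih =>
    obtain ⟨a, ha, rfl⟩ := hstep
    refine ⟨Or.inr ?_, Or.inr ha.2⟩
    have h1 := (hC _ _ ha.1).1
    rcases ih.1 with h2 | h2
    · rw [h2]
      exact h1
    · omega

lemma r_pm {b c : V} (hb : b ∈ σ.Φ) (h : c = b ∨ c = -b) (x : X) : σ.r c x = σ.r b x := by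
  rcases h with rfl | rfl
  · rfl
  · exact σ.r_neg hb x

lemma r_ne {a b : V} (ha : a ∈ σ.Φ) (hb : b ∈ σ.Φ) (h1 : -1 ≤ σ.ip a b) (h2 : σ.ip a b ≤ 1)
    (x : X) : σ.r b x ≠ σ.r a x := by
  intro h
  have h3 : σ.lab (σ.r b x) b = σ.lab (σ.r a x) b := by rw [h]
  rw [σ.lab_r_self hb, σ.lab_r a ha, map_sub, map_zsmul] at h3
  have h4 : σ.ip (-σ.lab x b) (σ.lab x b) =
      σ.ip (σ.lab x b - σ.ip b a • σ.lab x a) (σ.lab x b) := by rw [h3]
  rw [σ.ip_neg, σ.ip_sub, σ.ip_zsmul, σ.lab_ip, σ.lab_ip, σ.ip_self b hb, σ.ip_symm b a] at h4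
  have h5 : σ.ip a b * σ.ip a b ≤ 1 := by nlinarith
  linarith

theorem va (h1 : S_EDGE σ) (h2 : S_LFT σ) (h3 : S_4C σ) (h4 : S_CNT σ) : S_VA σ := by
  intro y M hM hex
  have hPy : σ.P y := by
    obtain ⟨a, ha⟩ := hex
    exact σ.P_of_R ha.1 ha.2
  have hyy : σ.Reach y y := Sys.Reach.refl σ y
  have hP : ∀ z, σ.Reach y z → σ.P z := by
    intro z hz
    rcases (mu_reach h4 hz).2 with h | h
    · rw [← h]
      exact hPy
    · exact h
  obtain ⟨α, hα, hMy, hmu⟩ : Cv σ y (M y) := by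
    rcases hM.cov y hyy with h | h
    · exact h
    · exfalso
      obtain ⟨a, _, _, hmu⟩ := h
      rcases (mu_reach h4 (hM.maps y hyy)).1 with h5 | h5
      · rw [← h5] at hmu
        omega
      · omega
  have hαΦ : α ∈ σ.Φ := hα.1.1
  refine ⟨α, hα, ?_, ?_⟩
  · intro b c hb hc hbc
    have := (h4 y α hα.1).2.2 ⟨b, c, hb, hc, hbc⟩
    rw [hMy] at hmu
    omega
  -- the vertex `z = r b y` and its match
  have key : ∀ b, σ.Psi y b → -1 ≤ σ.ip α b → σ.ip α b ≤ 1 →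
      σ.P (M (σ.r b y)) ∧
      (σ.ip α b = 0 → M (σ.r b y) = σ.r b (σ.r α y)) ∧
      (σ.ip α b = -1 → M (σ.r b y) = σ.r b (σ.r α y) ∨
        M (σ.r b y) = σ.r (α + b) (σ.r α y)) ∧
      (σ.ip α b = 1 → M (σ.r b y) = σ.r b (σ.r α y) ∨
        M (σ.r b y) = σ.r (b - α) (σ.r α y)) := by
    intro b hb hk1 hk2
    have hbΦ : b ∈ σ.Φ := hb.1.1
    have hz : σ.Reach y (σ.r b y) := Sys.Reach.single hb
    obtain ⟨c, hc, hMz⟩ := h1 y M hM y hyy b hb
    have hd : ∃ d ∈ σ.Φ, M (σ.r b y) = σ.r d (σ.r b y) := by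
      rcases hM.cov _ hz with h | h
      · obtain ⟨d, hd, he, _⟩ := h
        exact ⟨d, hd.1.1, he⟩
      · obtain ⟨d, hd, he, _⟩ := h
        refine ⟨d, hd.1.1, ?_⟩
        conv_rhs => rw [he]
        rw [σ.r_r hd.1.1]
    obtain ⟨d, hdΦ, hMd⟩ := hd
    have hzMy : σ.r b y ≠ M y := by
      rw [hMy]
      exact r_ne hαΦ hbΦ hk1 hk2 y
    have hMzy : M (σ.r b y) ≠ y := by
      intro h
      have := hM.inv _ hz
      rw [h] at this
      exact hzMy this.symm
    have hcα : c ≠ α := by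
      rintro rfl
      rw [hMy, σ.r_r hc] at hMz
      exact hMzy hMz
    have hcα' : c ≠ -α := by
      rintro rfl
      rw [hMy, σ.r_neg hαΦ, σ.r_r hαΦ] at hMz
      exact hMzy hMz
    rw [hMy] at hMz
    have h4C := (h3 c hc α hαΦ d hdΦ b hbΦ hcα hcα' y (by rw [← hMz, hMd])).2
    have hbα : b ≠ α := by
      rintro rfl
      rw [σ.ip_self b hbΦ] at hk2
      omega
    have hbα' : b ≠ -α := by
      rintro rfl
      rw [σ.ip_neg_right, σ.ip_self α hαΦ] at hk1
      omega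
    have hcase : (c = b ∨ c = -b) ∨ (σ.ip α b = -1 ∧ (c = α + b ∨ c = -(α + b))) ∨
        (σ.ip α b = 1 ∧ (c = b - α ∨ c = -(b - α))) := by
      rcases h4C.2 with h | h | h | h | ⟨hi, h | h⟩ | ⟨hi, h | h⟩
      · exact Or.inl (Or.inl h.symm)
      · left
        right
        rw [h, neg_neg]
      · exact absurd h hbα
      · exact absurd h hbα'
      · have e : c = b - α := by rw [h]; abel
        refine Or.inr (Or.inr ⟨?_, Or.inl e⟩)
        rw [e, σ.ip_sub, σ.ip_self α hαΦ, σ.ip_symm b α] at hi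
        omega
      · have e : c = -(α + b) := by rw [h]; abel
        refine Or.inr (Or.inl ⟨?_, Or.inr e⟩)
        rw [e, σ.ip_neg, σ.ip_add, σ.ip_self α hαΦ, σ.ip_symm b α] at hi
        omega
      · have e : c = α + b := by rw [h]; abel
        refine Or.inr (Or.inl ⟨?_, Or.inl e⟩)
        rw [e, σ.ip_add, σ.ip_self α hαΦ, σ.ip_symm b α] at hi
        omega
      · have e : c = -(b - α) := by rw [h]; abel
        refine Or.inr (Or.inr ⟨?_, Or.inr e⟩)
        rw [e, σ.ip_neg, σ.ip_sub, σ.ip_self α hαΦ, σ.ip_symm b α] at hi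
        omega
    refine ⟨hP _ (hM.maps _ hz), ?_, ?_, ?_⟩
    · intro hk
      rcases hcase with h | ⟨h, _⟩ | ⟨h, _⟩
      · rw [hMz, r_pm hbΦ h]
      · omega
      · omega
    · intro hk
      rcases hcase with h | ⟨_, h⟩ | ⟨h, _⟩
      · left
        rw [hMz, r_pm hbΦ h]
      · right
        rw [hMz, r_pm (σ.add_mem hαΦ hbΦ hk) h]
      · omega
    · intro hk
      rcases hcase with h | ⟨h, _⟩ | ⟨_, h⟩
      · left
        rw [hMz, r_pm hbΦ h]
      · omega
      · right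
        rw [hMz, r_pm (σ.sub_mem hbΦ hαΦ (by rw [σ.ip_symm]; exact hk)) h]
  -- the contradiction
  have contra : ∀ b e f, σ.Psi y b → -1 ≤ σ.ip α b → σ.ip α b ≤ 1 →
      M (σ.r b y) = σ.r e (σ.r b y) → M (σ.r b y) = σ.r f (M y) →
      σ.N (σ.r b y) e → σ.N (M y) f → False := by
    intro b e f hb hk1 hk2 he hf hNe hNf
    have hz : σ.Reach y (σ.r b y) := Sys.Reach.single hb
    have m1 := mu_up h4 hNe
    have m2 := mu_up h4 hNf
    rw [← he] at m1
    rw [← hf] at m2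
    have hcv : Cv σ (M (σ.r b y)) (σ.r b y) := by
      rcases hM.cov _ hz with h | h
      · obtain ⟨_, _, _, h5⟩ := h
        omega
      · exact h
    have hR := h2 y M hM y (σ.r b y) hyy hz hcv
    obtain ⟨_, _, _, h5⟩ := hcv
    rcases (mu_reach h4 hR).1 with h6 | h6
    · rw [hMy] at h6
      exact r_ne hαΦ hb.1.1 hk1 hk2 y h6.symm
    · omega
  refine ⟨?_, ?_, ?_, ?_⟩
  · intro b hb hk
    obtain ⟨hp, h5, _, _⟩ := key b hb (by omega) (by omega)
    rw [h5 hk] at hp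
    rwa [σ.r_comm hαΦ hb.1.1 hk]
  · intro b hb hk
    obtain ⟨hp, _, h5, _⟩ := key b hb (by omega) (by omega)
    rcases h5 hk with h | h
    · rw [h] at hp
      exact Or.inr hp
    · rw [h] at hp
      left
      rwa [σ.r_conj_neg hαΦ hb.1.1 hk]
  · intro b hb hk hN
    have hbΦ := hb.1.1
    obtain ⟨hp, _, _, h5⟩ := key b hb (by omega) (by omega)
    have hk' : σ.ip b α = 1 := by rw [σ.ip_symm]; exact hk
    rcases h5 hk with h | h
    · exfalso
      have e1 : M (σ.r b y) = σ.r (b - α) (σ.r b y) := by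
        rw [h, σ.r_conj_pos hbΦ hαΦ hk', ← σ.r_neg (σ.sub_mem hαΦ hbΦ hk), neg_sub]
      refine contra b (b - α) b hb (by omega) (by omega) e1 (by rw [h, hMy]) ?_ ?_
      · refine ⟨hN.1, hN.2.1, ?_⟩
        have e2 : σ.ip b (b - α) = 1 := by
          rw [σ.ip_sub_right, σ.ip_self b hbΦ, hk']
          norm_num
        rw [σ.lab_r_pos hbΦ y e2, map_sub, map_sub, map_sub]
        have := hα.1.2.2
        omega
      · refine ⟨hbΦ, hb.1.2.1, ?_⟩
        rw [hMy, σ.lab_r_pos hαΦ y hk, map_sub]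
        have := hN.2.2
        rw [map_sub, map_sub] at this
        exact this
    · rw [h] at hp
      rwa [σ.r_conj_pos hαΦ hbΦ hk]
  · intro b hb hk hN
    have hbΦ := hb.1.1
    obtain ⟨hp, _, _, h5⟩ := key b hb (by omega) (by omega)
    have hk' : σ.ip b α = 1 := by rw [σ.ip_symm]; exact hk
    rcases h5 hk with h | h
    · rwa [h] at hp
    · exfalso
      have e1 : M (σ.r b y) = σ.r α (σ.r b y) := by
        rw [h, σ.r_conj_pos hαΦ hbΦ hk]
      have e3 : M (σ.r b y) = σ.r (α - b) (M y) := by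
        rw [h, hMy, ← σ.r_neg (σ.sub_mem hbΦ hαΦ hk'), neg_sub]
      refine contra b α (α - b) hb (by omega) (by omega) e1 e3 ?_ ?_
      · refine ⟨hαΦ, hα.1.2.1, ?_⟩
        rw [σ.lab_r_pos hbΦ y hk', map_sub]
        have := hN.2.2
        rw [map_sub, map_sub] at this
        exact this
      · refine ⟨hN.1, hN.2.1, ?_⟩
        have e2 : σ.ip α (α - b) = 1 := by
          rw [σ.ip_sub_right, σ.ip_self α hαΦ, hk]
          norm_num
        rw [hMy, σ.lab_r_pos hαΦ y e2, map_sub, map_sub, map_sub]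
        have := hb.1.2.2
        omega

end Pool.Agent.W101.DC
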